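import Mathlib
import Pool.Agent.H964.QC.Stm

set_option autoImplicit false

open Pool.Agent.H964.QC

namespace Pool.Agent.H296.QC

namespace UU

theorem RR_eq (m : ℕ) : RR m = ∑ i ∈ Finset.range m, rr (m - i) := by
  unfold RR
  refine Finset.sum_nbij' (fun i => m - i) (fun i => m - i) ?_ ?_ ?_ ?_ ?_
  · intro i hi
    simp only [Finset.mem_Icc, Finset.mem_range] at hi ⊢
    omega
  · intro i hi
    simp only [Finset.mem_Icc, Finset.mem_range] at hi ⊢
    omega
  · intro i hi
    simp only [Finset.mem_Icc] at hi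
    omega
  · intro i hi
    simp only [Finset.mem_range] at hi
    omega
  · intro i hi
    simp only [Finset.mem_Icc] at hi
    congr 1
    omega

theorem UU_eq (s : ℝ) (n : ℕ) :
    UU s n = 1 + s * ∑ i ∈ Finset.range n, rr (n - i) * UU s i := by
  rw [Pool.Agent.H964.QC.UU, Fin.sum_univ_eq_sum_range (fun i => rr (n - i) * UU s i) n]

theorem sum_inv_sqrt (k : ℕ) :
    ∑ i ∈ Finset.range k, 1 / Real.sqrt ((i : ℝ) + 1) ≤ 2 * Real.sqrt k := by
  induction k with
  | zero => simp
  | succ k ih =>
    rw [Finset.sum_range_succ]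
    push_cast
    have h0 : 0 ≤ Real.sqrt (k : ℝ) := Real.sqrt_nonneg _
    have h1 : 0 < Real.sqrt ((k : ℝ) + 1) := Real.sqrt_pos.2 (by positivity)
    have h2 : Real.sqrt (k : ℝ) ^ 2 = k := Real.sq_sqrt (by positivity)
    have h3 : Real.sqrt ((k : ℝ) + 1) ^ 2 = k + 1 := Real.sq_sqrt (by positivity)
    have h4 : 1 / Real.sqrt ((k : ℝ) + 1) ≤ 2 * Real.sqrt ((k : ℝ) + 1) - 2 * Real.sqrt k := by
      rw [div_le_iff₀ h1]
      nlinarith [sq_nonneg (Real.sqrt ((k : ℝ) + 1) - Real.sqrt k)]
    linarith

/-- `log (m / i) ≤ 2 (m - i) / (√i √m)` -/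
theorem log_le (a b : ℝ) (ha : 0 < a) (hab : a ≤ b) :
    Real.log (b / a) ≤ 2 * (b - a) / (Real.sqrt a * Real.sqrt b) := by
  have hb : 0 < b := ha.trans_le hab
  have hsa : 0 < Real.sqrt a := Real.sqrt_pos.2 ha
  have hsb : 0 < Real.sqrt b := Real.sqrt_pos.2 hb
  have h1 : Real.log (b / a) = 2 * Real.log (Real.sqrt b / Real.sqrt a) := by
    rw [← Real.sqrt_div hb.le, Real.log_sqrt (by positivity)]
    ring
  have h2 : Real.log (Real.sqrt b / Real.sqrt a) ≤ Real.sqrt b / Real.sqrt a - 1 :=
    Real.log_le_sub_one_of_pos (by positivity)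
  have ea : Real.sqrt a ^ 2 = a := Real.sq_sqrt ha.le
  have eb : Real.sqrt b ^ 2 = b := Real.sq_sqrt hb.le
  have h3 : Real.sqrt b / Real.sqrt a - 1 ≤ (b - a) / (Real.sqrt a * Real.sqrt b) := by
    rw [le_div_iff₀ (by positivity)]
    have : (Real.sqrt b / Real.sqrt a - 1) * (Real.sqrt a * Real.sqrt b)
        = Real.sqrt b ^ 2 - Real.sqrt a * Real.sqrt b := by
      field_simp
    rw [this, eb]
    have h5 : Real.sqrt a ≤ Real.sqrt b := Real.sqrt_le_sqrt hab
    nlinarith
  rw [h1, mul_div_assoc]
  linarith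

theorem RR_mono (h : S_RR) {a b : ℕ} (hab : a ≤ b) : RR a ≤ RR b := by
  unfold RR
  refine Finset.sum_le_sum_of_subset_of_nonneg ?_ (fun i _ _ => (h.1 i).le)
  intro i hi
  simp only [Finset.mem_Icc] at hi ⊢
  omega

theorem RR_nonneg (h : S_RR) (a : ℕ) : 0 ≤ RR a :=
  Finset.sum_nonneg (fun i _ => (h.1 i).le)

theorem key (h : S_RR) (m : ℕ) :
    ∑ i ∈ Finset.range m, rr (m - i) * (RR m - RR i) ≤ 2 := by
  obtain ⟨h1, h2, h3, h4, h5, h6, h7⟩ := h
  rcases m with _ | m'
  · simp
  set m := m' + 1 with hm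
  rw [Finset.sum_range_succ']
  have hm1 : (1 : ℝ) ≤ m := by rw [hm]; push_cast; linarith [(Nat.cast_nonneg m' : (0:ℝ) ≤ m')]
  have hz : rr (m - 0) * (RR m - RR 0) ≤ 1 := by
    have e1 : RR 0 = 0 := by simp [RR]
    rw [e1, Nat.sub_zero, sub_zero]
    have e2 := h7 m (by omega)
    have e3 : Real.log (m : ℝ) ≤ m - 1 := Real.log_le_sub_one_of_pos (by linarith)
    have e4 : RR m ≤ 2 * (m : ℝ) + 1 := by linarith
    calc rr m * RR m ≤ rr m * (2 * (m : ℝ) + 1) := mul_le_mul_of_nonneg_left e4 (h1 m).le
      _ ≤ 1 / (2 * (m : ℝ) + 1) * (2 * (m : ℝ) + 1) :=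
          mul_le_mul_of_nonneg_right (h2 m) (by linarith)
      _ = 1 := by field_simp
  have hsm : 0 < Real.sqrt (m : ℝ) := Real.sqrt_pos.2 (by linarith)
  have hterm : ∀ i ∈ Finset.range m', rr (m - (i + 1)) * (RR m - RR (i + 1)) ≤
      1 / (2 * Real.sqrt m) * (1 / Real.sqrt ((i : ℝ) + 1)) := by
    intro i hi
    rw [Finset.mem_range] at hi
    have e1 := h5 (i + 1) m (by omega) (by omega)
    push_cast at e1
    have hi1 : (0 : ℝ) < (i : ℝ) + 1 := by positivity
    have hle : (i : ℝ) + 1 ≤ m := by
      have : i + 1 ≤ m := by omega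
      exact_mod_cast this
    have e2 := log_le ((i : ℝ) + 1) m hi1 hle
    have hsi : 0 < Real.sqrt ((i : ℝ) + 1) := Real.sqrt_pos.2 hi1
    have e3 := h2 (m - (i + 1))
    have hcast : ((m - (i + 1) : ℕ) : ℝ) = (m : ℝ) - ((i : ℝ) + 1) := by
      rw [Nat.cast_sub (by omega)]
      push_cast
      ring
    rw [hcast] at e3
    set k : ℝ := (m : ℝ) - ((i : ℝ) + 1) with hk
    have hk0 : 0 ≤ k := by linarith
    have e4 : RR m - RR (i + 1) ≤ k / (Real.sqrt ((i : ℝ) + 1) * Real.sqrt m) := by
      refine e1.trans ?_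
      calc 1 / 2 * Real.log ((m : ℝ) / ((i : ℝ) + 1))
          ≤ 1 / 2 * (2 * k / (Real.sqrt ((i : ℝ) + 1) * Real.sqrt m)) := by gcongr
        _ = k / (Real.sqrt ((i : ℝ) + 1) * Real.sqrt m) := by ring
    calc rr (m - (i + 1)) * (RR m - RR (i + 1))
        ≤ rr (m - (i + 1)) * (k / (Real.sqrt ((i : ℝ) + 1) * Real.sqrt m)) :=
          mul_le_mul_of_nonneg_left e4 (h1 _).le
      _ ≤ 1 / (2 * k + 1) * (k / (Real.sqrt ((i : ℝ) + 1) * Real.sqrt m)) :=
          mul_le_mul_of_nonneg_right e3 (by positivity)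
      _ = (k / (2 * k + 1)) * (1 / (Real.sqrt ((i : ℝ) + 1) * Real.sqrt m)) := by ring
      _ ≤ (1 / 2) * (1 / (Real.sqrt ((i : ℝ) + 1) * Real.sqrt m)) := by
          refine mul_le_mul_of_nonneg_right ?_ (by positivity)
          rw [div_le_iff₀ (by linarith)]
          linarith
      _ = 1 / (2 * Real.sqrt m) * (1 / Real.sqrt ((i : ℝ) + 1)) := by
          field_simp
  have hsum : ∑ i ∈ Finset.range m', rr (m - (i + 1)) * (RR m - RR (i + 1)) ≤ 1 := by
    refine (Finset.sum_le_sum hterm).trans ?_
    rw [← Finset.mul_sum]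
    have e5 := sum_inv_sqrt m'
    have e6 : Real.sqrt (m' : ℝ) ≤ Real.sqrt (m : ℝ) := by
      apply Real.sqrt_le_sqrt
      rw [hm]
      push_cast
      linarith
    calc 1 / (2 * Real.sqrt m) * ∑ i ∈ Finset.range m', 1 / Real.sqrt ((i : ℝ) + 1)
        ≤ 1 / (2 * Real.sqrt m) * (2 * Real.sqrt m) := by
          refine mul_le_mul_of_nonneg_left (e5.trans ?_) (by positivity)
          linarith
      _ = 1 := by field_simp
  linarith

end UU

open UU in
theorem t_UU : S_RR → S_UU := by
  intro h
  obtain ⟨h1, h2, h3, h4, h5, h6, h7⟩ := id h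
  have hone : ∀ (s : ℝ), 0 ≤ s → ∀ n : ℕ, 1 ≤ UU s n := by
    intro s hs n
    induction n using Nat.strong_induction_on with
    | _ n ih =>
      rw [UU_eq]
      have : 0 ≤ s * ∑ i ∈ Finset.range n, rr (n - i) * UU s i := by
        refine mul_nonneg hs (Finset.sum_nonneg fun i hi => ?_)
        have := ih i (Finset.mem_range.1 hi)
        exact mul_nonneg (h1 _).le (by linarith)
      linarith
  refine ⟨?_, 2, by norm_num, ?_⟩
  · intro s n hs hlt
    refine ⟨hone s hs n, ?_⟩
    have hpos : 0 < 1 - s * RR n := by linarith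
    have hup : ∀ m : ℕ, m ≤ n → UU s m ≤ 1 / (1 - s * RR n) := by
      intro m
      induction m using Nat.strong_induction_on with
      | _ m ih =>
        intro hmn
        rw [UU_eq]
        set E : ℝ := 1 / (1 - s * RR n) with hE
        have hE0 : 0 < E := by positivity
        have e1 : ∑ i ∈ Finset.range m, rr (m - i) * UU s i ≤ RR m * E := by
          rw [RR_eq m, Finset.sum_mul]
          refine Finset.sum_le_sum fun i hi => ?_
          have hi' := Finset.mem_range.1 hi
          exact mul_le_mul_of_nonneg_left (ih i hi' (by omega)) (h1 _).le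
        have e2 : RR m ≤ RR n := RR_mono h hmn
        have e3 : E = 1 + s * (RR n * E) := by
          rw [hE]
          field_simp
          ring
        have e4 : s * ∑ i ∈ Finset.range m, rr (m - i) * UU s i ≤ s * (RR n * E) := by
          refine mul_le_mul_of_nonneg_left (e1.trans ?_) hs
          exact mul_le_mul_of_nonneg_right e2 hE0.le
        linarith
    exact hup n le_rfl
  · intro s n hs hlt
    have hlow : ∀ m : ℕ, m ≤ n → 1 / (1 - s * RR m + 2 * s) ≤ UU s m := by
      intro m
      induction m using Nat.strong_induction_on with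
      | _ m ih =>
        intro hmn
        rw [UU_eq]
        have hRm : s * RR m ≤ s * RR n := mul_le_mul_of_nonneg_left (RR_mono h hmn) hs
        have hden : ∀ i ≤ m, 0 < 1 - s * RR i + 2 * s := by
          intro i hi
          have := mul_le_mul_of_nonneg_left (RR_mono h hi) hs
          linarith
        set g : ℝ := 1 / (1 - s * RR m + 2 * s) with hg
        have hdm := hden m le_rfl
        have hg0 : 0 < g := by positivity
        have hgid : g * (1 - s * RR m + 2 * s) = 1 := by
          rw [hg]
          exact one_div_mul_cancel hdm.ne'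
        have hterm : ∀ i ∈ Finset.range m, rr (m - i) * g - s * g ^ 2 * (rr (m - i) * (RR m - RR i))
            ≤ rr (m - i) * UU s i := by
          intro i hi
          have hi' := Finset.mem_range.1 hi
          have e1 := ih i hi' (by omega)
          have hdi := hden i hi'.le
          have e2 : g - s * g ^ 2 * (RR m - RR i) ≤ 1 / (1 - s * RR i + 2 * s) := by
            set gi : ℝ := 1 / (1 - s * RR i + 2 * s) with hgi
            have hgi0 : 0 < gi := by positivity
            have hgiid : gi * (1 - s * RR i + 2 * s) = 1 := by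
              rw [hgi]
              exact one_div_mul_cancel hdi.ne'
            have hRi : RR i ≤ RR m := RR_mono h hi'.le
            have hsR : 0 ≤ s * (RR m - RR i) := mul_nonneg hs (by linarith)
            have e3 : g - gi = g * gi * (s * (RR m - RR i)) := by
              have a1 : g = g * (gi * (1 - s * RR i + 2 * s)) := by rw [hgiid, mul_one]
              have a2 : gi = gi * (g * (1 - s * RR m + 2 * s)) := by rw [hgid, mul_one]
              calc g - gi = g * (gi * (1 - s * RR i + 2 * s))
                    - gi * (g * (1 - s * RR m + 2 * s)) := by rw [← a1, ← a2]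
                _ = g * gi * (s * (RR m - RR i)) := by ring
            have e4 : gi ≤ g := by
              have : 0 ≤ g * gi * (s * (RR m - RR i)) := by positivity
              linarith
            have e5 : g * gi * (s * (RR m - RR i)) ≤ g * g * (s * (RR m - RR i)) := by
              refine mul_le_mul_of_nonneg_right ?_ hsR
              exact mul_le_mul_of_nonneg_left e4 hg0.le
            have e6 : s * g ^ 2 * (RR m - RR i) = g * g * (s * (RR m - RR i)) := by ring
            linarith
          have e7 := mul_le_mul_of_nonneg_left (e2.trans e1) (h1 (m - i)).le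
          calc rr (m - i) * g - s * g ^ 2 * (rr (m - i) * (RR m - RR i))
              = rr (m - i) * (g - s * g ^ 2 * (RR m - RR i)) := by ring
            _ ≤ rr (m - i) * UU s i := e7
        have hsum := Finset.sum_le_sum hterm
        rw [Finset.sum_sub_distrib, ← Finset.sum_mul, ← Finset.mul_sum, ← RR_eq] at hsum
        have hkey := key h m
        have hs2 : s * g ^ 2 * ∑ i ∈ Finset.range m, rr (m - i) * (RR m - RR i)
            ≤ s * g ^ 2 * 2 := mul_le_mul_of_nonneg_left hkey (by positivity)
        have hs3 : s * (RR m * g - s * g ^ 2 * 2) ≤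
            s * ∑ i ∈ Finset.range m, rr (m - i) * UU s i :=
          mul_le_mul_of_nonneg_left (by linarith) hs
        have hsg : 2 * (s * g) ≤ 1 := by
          have : g * (1 - s * RR m) + 2 * (s * g) = 1 := by linear_combination hgid
          have h0 : 0 ≤ g * (1 - s * RR m) := mul_nonneg hg0.le (by linarith)
          linarith
        have hsg0 : 0 ≤ s * g := mul_nonneg hs hg0.le
        have hfin : g ≤ 1 + s * (RR m * g - s * g ^ 2 * 2) := by
          have a1 : 1 + s * (RR m * g - s * g ^ 2 * 2) - g = 2 * (s * g) * (1 - s * g) := by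
            linear_combination (-1) * hgid
          have a2 : 0 ≤ 2 * (s * g) * (1 - s * g) := mul_nonneg (by linarith) (by linarith)
          linarith
        linarith
    exact hlow n le_rfl

end Pool.Agent.H296.QC
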